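import Mathlib

/-! MP_58d537, helper41: Theorem 1 of helper67's proof (two scale butterfly theorem).

`U` a set of points of the cube `ι → Bool`, `S u` arbitrary labels, `m` a natural number.
`z` is RED if some `u ∈ U` has `z k ≠ u k → k ∉ S u` and less than `m` coordinates with `z k ≠ u k`;
`z` is BLUE if some `u ∈ U` has `z k = u k → k ∈ S u` and less than `m` coordinates with `z k = u k`.
Then `2 m |U| ≤ 2 m |RED ∩ BLUE| + ∑ s, |2 wt s - n|`. -/

namespace Pool.Agent.BF

open Polynomial Finset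

variable {ι : Type*} [Fintype ι] [DecidableEq ι]

/-- the red points -/
def IsRed (U : Finset (ι → Bool)) (S : (ι → Bool) → Finset ι) (m : ℕ) (z : ι → Bool) : Prop :=
  ∃ u ∈ U, (∀ k, z k ≠ u k → k ∉ S u) ∧ (univ.filter (fun k => z k ≠ u k)).card < m

/-- the blue points -/
def IsBlue (U : Finset (ι → Bool)) (S : (ι → Bool) → Finset ι) (m : ℕ) (z : ι → Bool) : Prop :=
  ∃ u ∈ U, (∀ k, z k = u k → k ∈ S u) ∧ (univ.filter (fun k => z k = u k)).card < m

/-- the weight of a point -/
def wt (s : ι → Bool) : ℕ := (univ.filter (fun k => s k = true)).card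

/-- one factor of `G` -/
noncomputable def gf (c : Bool) (a b : Bool) : ℝ[X] := if a = b then 1 else if c then 0 else X

/-- one factor of `M` -/
noncomputable def mf (a b : Bool) : ℝ[X] := if a = b then -X else 1

/-- one factor of the Hadamard matrix -/
noncomputable def hf (a b : Bool) : ℝ[X] := if a = true ∧ b = true then -1 else 1

/-- the matrix `G`, `L u k = true` iff `k` is in the label of `u` -/
noncomputable def G (L : (ι → Bool) → ι → Bool) : Matrix (ι → Bool) (ι → Bool) ℝ[X] :=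
  fun u w => ∏ k, gf (L u k) (u k) (w k)

/-- the matrix `H` -/
noncomputable def H (Z : Finset (ι → Bool)) : Matrix (ι → Bool) (ι → Bool) ℝ[X] :=
  fun z w => if z ∈ Z then ∏ k, mf (z k) (w k) else if z = w then 1 else 0

/-- the Hadamard matrix -/
noncomputable def W : Matrix (ι → Bool) (ι → Bool) ℝ[X] := fun z s => ∏ k, hf (z k) (s k)

theorem sum_prod (f : ι → Bool → ℝ[X]) : ∑ w : ι → Bool, ∏ k, f k (w k) = ∏ k, ∑ b, f k b := by
  rw [Finset.prod_univ_sum, Fintype.piFinset_univ]

/-! ### the determinant of `G` -/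

theorem det_G_not_dvd (L : (ι → Bool) → ι → Bool) : ¬ (X : ℝ[X]) ∣ (G L).det := by
  rw [Polynomial.X_dvd_iff, Polynomial.coeff_zero_eq_eval_zero]
  have h : Polynomial.eval 0 (G L).det = ((Polynomial.evalRingHom 0).mapMatrix (G L)).det := by
    rw [← RingHom.map_det]; rfl
  rw [h]
  have h2 : (Polynomial.evalRingHom (0 : ℝ)).mapMatrix (G L) = 1 := by
    ext u w
    simp only [RingHom.mapMatrix_apply, Matrix.map_apply, G, Polynomial.coe_evalRingHom,
      Polynomial.eval_prod, Matrix.one_apply]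
    split_ifs with huw
    · subst huw
      exact Finset.prod_eq_one fun k _ => by simp [gf]
    · obtain ⟨k, hk⟩ := Function.ne_iff.mp huw
      refine Finset.prod_eq_zero (Finset.mem_univ k) ?_
      simp only [gf, if_neg hk]
      split_ifs <;> simp
  rw [h2, Matrix.det_one]
  exact one_ne_zero

/-! ### the determinant of `H` is not zero -/

theorem exists_small (n : ℕ) : ∃ y : ℝ, 0 < y ∧ (1 + y) ^ n < 2 := by
  have hc : Filter.Tendsto (fun y : ℝ => (1 + y) ^ n) (nhdsWithin 0 (Set.Ioi 0)) (nhds ((1 + 0) ^ n)) :=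
    (((continuous_const.add continuous_id).pow n).tendsto 0).mono_left nhdsWithin_le_nhds
  have h2 : ((1 : ℝ) + 0) ^ n < 2 := by norm_num
  have he := hc.eventually_lt_const h2
  obtain ⟨y, hy, hy2⟩ := (he.and self_mem_nhdsWithin).exists
  exact ⟨y, hy2, hy⟩

theorem det_H_ne (Z : Finset (ι → Bool)) : (H Z).det ≠ 0 := by
  obtain ⟨y, hy, hy2⟩ := exists_small (Fintype.card ι)
  set x : ℝ := 1 / y with hx
  have hx0 : 0 < x := by positivity
  intro h0
  have h : Polynomial.eval x (H Z).det = ((Polynomial.evalRingHom x).mapMatrix (H Z)).det := by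
    rw [← RingHom.map_det]; rfl
  rw [h0, Polynomial.eval_zero] at h
  refine det_ne_zero_of_sum_row_lt_diag (A := (Polynomial.evalRingHom x).mapMatrix (H Z)) ?_ h.symm
  intro z
  by_cases hz : z ∈ Z
  · have hval : ∀ w, ‖((Polynomial.evalRingHom x).mapMatrix (H Z)) z w‖
        = ∏ k, (if z k = w k then x else 1) := by
      intro w
      simp only [RingHom.mapMatrix_apply, Matrix.map_apply, H, if_pos hz,
        Polynomial.coe_evalRingHom, Polynomial.eval_prod, norm_prod]
      refine Finset.prod_congr rfl fun k _ => ?_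
      unfold mf
      split_ifs
      · simp [abs_of_pos hx0]
      · simp
    have hsum : ∑ w, ‖((Polynomial.evalRingHom x).mapMatrix (H Z)) z w‖
        = (1 + x) ^ Fintype.card ι := by
      simp only [hval]
      have := Finset.prod_univ_sum (fun _ : ι => (Finset.univ : Finset Bool))
        (fun k b => if z k = b then x else (1 : ℝ))
      rw [Fintype.piFinset_univ] at this
      rw [← this, ← Finset.card_univ, ← Finset.prod_const]
      refine Finset.prod_congr rfl fun k _ => ?_
      rw [Fintype.sum_bool]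
      cases z k <;> simp [add_comm]
    have hdiag : ‖((Polynomial.evalRingHom x).mapMatrix (H Z)) z z‖ = x ^ Fintype.card ι := by
      rw [hval]; simp
    have hlt : (1 + x) ^ Fintype.card ι < 2 * x ^ Fintype.card ι := by
      have h1 : (1 + x) = x * (1 + y) := by
        rw [hx]; field_simp; ring
      rw [h1, mul_pow]
      nlinarith [pow_pos hx0 (Fintype.card ι)]
    rw [← Finset.add_sum_erase _ _ (Finset.mem_univ z)] at hsum
    linarith
  · have hval : ∀ w, ‖((Polynomial.evalRingHom x).mapMatrix (H Z)) z w‖ = if z = w then 1 else 0 := by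
      intro w
      simp only [RingHom.mapMatrix_apply, Matrix.map_apply, H, if_neg hz]
      split_ifs <;> simp
    rw [hval, if_pos rfl]
    refine lt_of_eq_of_lt (Finset.sum_eq_zero fun w hw => ?_) one_pos
    rw [hval, if_neg (Finset.ne_of_mem_erase hw).symm]

/-! ### the Hadamard matrix -/

theorem W_mul_W : (W : Matrix (ι → Bool) (ι → Bool) ℝ[X]) * W
    = (2 : ℝ[X]) ^ Fintype.card ι • (1 : Matrix (ι → Bool) (ι → Bool) ℝ[X]) := by
  refine Matrix.ext fun z w => ?_
  rw [Matrix.mul_apply]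
  simp only [W, ← Finset.prod_mul_distrib]
  rw [sum_prod (fun k b => hf (z k) b * hf b (w k))]
  rw [Matrix.smul_apply, Matrix.one_apply, smul_eq_mul]
  split_ifs with h
  · subst h
    rw [mul_one, ← Finset.card_univ, ← Finset.prod_const]
    refine Finset.prod_congr rfl fun k _ => ?_
    rw [Fintype.sum_bool]
    cases z k <;> simp [hf] <;> norm_num
  · rw [mul_zero]
    obtain ⟨k, hk⟩ := Function.ne_iff.mp h
    refine Finset.prod_eq_zero (Finset.mem_univ k) ?_
    rw [Fintype.sum_bool]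
    revert hk
    cases z k <;> cases w k <;> simp [hf]

theorem det_W_ne : (W : Matrix (ι → Bool) (ι → Bool) ℝ[X]).det ≠ 0 := by
  intro h
  have h1 := congrArg Matrix.det (W_mul_W (ι := ι))
  rw [Matrix.det_mul, h, zero_mul, Matrix.det_smul, Matrix.det_one, mul_one] at h1
  have h2 : (2 : ℝ[X]) ≠ 0 := two_ne_zero
  exact pow_ne_zero _ (pow_ne_zero _ h2) h1.symm

/-- the eigenvalues of `M` -/
noncomputable def ev (s : ι → Bool) : ℝ[X] := ∏ k, if s k = true then -(1 + X) else 1 - X

theorem M_mul_W (z s : ι → Bool) :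
    ∑ w : ι → Bool, (∏ k, mf (z k) (w k)) * W w s = W z s * ev s := by
  simp only [W, ← Finset.prod_mul_distrib, ev]
  rw [sum_prod (fun k b => mf (z k) b * hf b (s k))]
  refine Finset.prod_congr rfl fun k _ => ?_
  rw [Fintype.sum_bool]
  cases z k <;> cases s k <;> simp [mf, hf] <;> ring

theorem ev_eq (s : ι → Bool) :
    ev s = (-1) ^ wt s * ((1 - X) ^ (Fintype.card ι - wt s) * (1 + X) ^ wt s) := by
  unfold ev wt
  rw [Finset.prod_ite, Finset.prod_const, Finset.prod_const]
  have h : (univ.filter (fun k => ¬ s k = true)).card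
      = Fintype.card ι - (univ.filter (fun k => s k = true)).card := by
    have := Finset.card_filter_add_card_filter_not (s := (univ : Finset ι)) (fun k => s k = true)
    rw [Finset.card_univ] at this
    omega
  rw [h, neg_pow]
  ring

theorem wt_le (s : ι → Bool) : wt s ≤ Fintype.card ι := by
  unfold wt
  exact (Finset.card_filter_le _ _).trans (by rw [Finset.card_univ])

/-! ### the main divisibility -/

/-- extended labels -/
def lab (U : Finset (ι → Bool)) (S : (ι → Bool) → Finset ι) (u : ι → Bool) (k : ι) : Bool :=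
  decide (u ∈ U → k ∈ S u)

theorem X_pow_dvd_prod (f : ι → ℝ[X]) (A : Finset ι) (m : ℕ) (hm : m ≤ A.card)
    (h : ∀ k ∈ A, X ∣ f k) : X ^ m ∣ ∏ k, f k := by
  refine (pow_dvd_pow X hm).trans ?_
  rw [← Finset.prod_const]
  exact (Finset.prod_dvd_prod_of_dvd _ _ h).trans
    (Finset.prod_dvd_prod_of_subset _ _ _ (Finset.subset_univ A))

theorem entry_notMem (L : (ι → Bool) → ι → Bool) (Z : Finset (ι → Bool)) (u z : ι → Bool)
    (hz : z ∉ Z) : (G L * (H Z).transpose) u z = ∏ k, gf (L u k) (u k) (z k) := by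
  rw [Matrix.mul_apply]
  simp only [Matrix.transpose_apply, H, if_neg hz, mul_ite, mul_one, mul_zero]
  rw [Finset.sum_ite_eq, if_pos (Finset.mem_univ z)]
  rfl

theorem entry_mem (L : (ι → Bool) → ι → Bool) (Z : Finset (ι → Bool)) (u z : ι → Bool)
    (hz : z ∈ Z) : (G L * (H Z).transpose) u z
      = ∏ k, (if z k = u k then (if L u k = true then -X else 0)
          else (if L u k = true then 1 else 1 - X ^ 2)) := by
  rw [Matrix.mul_apply]
  simp only [Matrix.transpose_apply, H, if_pos hz, G, ← Finset.prod_mul_distrib]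
  rw [sum_prod (fun k b => gf (L u k) (u k) b * mf (z k) b)]
  refine Finset.prod_congr rfl fun k _ => ?_
  rw [Fintype.sum_bool]
  cases z k <;> cases u k <;> cases L u k <;> simp [mf, gf] <;> ring

theorem card_filter_ne_comm (u z : ι → Bool) :
    (univ.filter (fun k => z k ≠ u k)) = (univ.filter (fun k => u k ≠ z k)) := by
  ext k; simp [ne_comm]

/-- the key divisibility of the entries -/
theorem entry_dvd (U : Finset (ι → Bool)) (S : (ι → Bool) → Finset ι) (m : ℕ)
    (Z : Finset (ι → Bool)) (hZ : ∀ z, z ∈ Z ↔ IsRed U S m z ∧ ¬ IsBlue U S m z)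
    (u z : ι → Bool) (hu : u ∈ U) (hz : ¬ (IsRed U S m z ∧ IsBlue U S m z)) :
    X ^ m ∣ (G (lab U S) * (H Z).transpose) u z := by
  have hlab : ∀ k, lab U S u k = true ↔ k ∈ S u := by
    intro k; simp [lab, hu]
  by_cases hzZ : z ∈ Z
  · rw [entry_mem _ _ _ _ hzZ]
    have hnb : ¬ IsBlue U S m z := ((hZ z).mp hzZ).2
    by_cases hsub : ∀ k, z k = u k → k ∈ S u
    · have hcard : m ≤ (univ.filter (fun k => z k = u k)).card := by
        by_contra hlt
        exact hnb ⟨u, hu, hsub, not_le.mp hlt⟩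
      refine X_pow_dvd_prod _ _ m hcard fun k hk => ?_
      have hk1 : z k = u k := (Finset.mem_filter.mp hk).2
      rw [if_pos hk1, if_pos ((hlab k).mpr (hsub k hk1))]
      exact ⟨-1, by ring⟩
    · push Not at hsub
      obtain ⟨k, hk1, hk2⟩ := hsub
      rw [Finset.prod_eq_zero (Finset.mem_univ k)]
      · exact dvd_zero _
      · rw [if_pos hk1, if_neg]
        rw [hlab k]; exact hk2
  · rw [entry_notMem _ _ _ _ hzZ]
    have hnr : ¬ IsRed U S m z := by
      intro hr
      by_cases hb : IsBlue U S m z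
      · exact hz ⟨hr, hb⟩
      · exact hzZ ((hZ z).mpr ⟨hr, hb⟩)
    by_cases hsub : ∀ k, z k ≠ u k → k ∉ S u
    · have hcard : m ≤ (univ.filter (fun k => z k ≠ u k)).card := by
        by_contra hlt
        exact hnr ⟨u, hu, hsub, not_le.mp hlt⟩
      refine X_pow_dvd_prod _ _ m hcard fun k hk => ?_
      have hk1 : z k ≠ u k := (Finset.mem_filter.mp hk).2
      have hk2 : ¬ lab U S u k = true := by rw [hlab k]; exact hsub k hk1
      rw [gf, if_neg (Ne.symm hk1), if_neg hk2]
    · push Not at hsub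
      obtain ⟨k, hk1, hk2⟩ := hsub
      rw [Finset.prod_eq_zero (Finset.mem_univ k)]
      · exact dvd_zero _
      · rw [gf, if_neg (Ne.symm hk1), if_pos ((hlab k).mpr hk2)]

/-- `X ^ (m (|U| - |RED ∩ BLUE|))` divides `det H` -/
theorem det_H_dvd (U : Finset (ι → Bool)) (S : (ι → Bool) → Finset ι) (m : ℕ)
    (Z P : Finset (ι → Bool)) (hZ : ∀ z, z ∈ Z ↔ IsRed U S m z ∧ ¬ IsBlue U S m z)
    (hP : ∀ z, z ∈ P ↔ IsRed U S m z ∧ IsBlue U S m z) :
    X ^ (m * U.card - m * P.card) ∣ (H Z).det := by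
  classical
  set N := Fintype.card (ι → Bool) with hN
  have hUc : U.card ≤ N := Finset.card_le_univ U
  have hPc : P.card ≤ N := Finset.card_le_univ P
  -- row factors
  set r : (ι → Bool) → ℝ[X] := fun u => if u ∈ U then 1 else X ^ m with hr
  set c : (ι → Bool) → ℝ[X] := fun z => if z ∈ P then 1 else X ^ m with hc
  have hprodr : ∏ u, r u = X ^ (m * (N - U.card)) := by
    simp only [hr, Finset.prod_ite, Finset.prod_const_one, one_mul, Finset.prod_const]
    rw [← pow_mul]
    congr 2
    have h1 := Finset.card_filter_add_card_filter_not (s := (univ : Finset (ι → Bool))) (fun u => u ∈ U)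
    rw [Finset.card_univ, ← hN] at h1
    have h2 : (univ.filter (fun u => u ∈ U)) = U := by ext; simp
    rw [h2] at h1
    omega
  have hprodc : ∏ u, c u = X ^ (m * (N - P.card)) := by
    simp only [hc, Finset.prod_ite, Finset.prod_const_one, one_mul, Finset.prod_const]
    rw [← pow_mul]
    congr 2
    have h1 := Finset.card_filter_add_card_filter_not (s := (univ : Finset (ι → Bool))) (fun u => u ∈ P)
    rw [Finset.card_univ, ← hN] at h1
    have h2 : (univ.filter (fun u => u ∈ P)) = P := by ext; simp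
    rw [h2] at h1
    omega
  have hdvd : ∀ u z, c z ∣ (Matrix.diagonal r * (G (lab U S) * (H Z).transpose)) u z := by
    intro u z
    rw [Matrix.diagonal_mul]
    by_cases hz : z ∈ P
    · simp [hc, hz]
    · by_cases hu : u ∈ U
      · simp only [hc, hr, if_neg hz, if_pos hu, one_mul]
        exact entry_dvd U S m Z hZ u z hu (fun h => hz ((hP z).mpr h))
      · simp only [hc, hr, if_neg hz, if_neg hu]
        exact dvd_mul_right _ _
  choose K hK using hdvd
  have hmat : Matrix.diagonal r * (G (lab U S) * (H Z).transpose)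
      = (Matrix.of fun u z => K u z) * Matrix.diagonal c := by
    refine Matrix.ext fun u z => ?_
    rw [hK u z, Matrix.mul_diagonal, Matrix.of_apply, mul_comm]
  have hdet := congrArg Matrix.det hmat
  rw [Matrix.det_mul, Matrix.det_mul, Matrix.det_mul, Matrix.det_diagonal, Matrix.det_diagonal,
    hprodr, hprodc, Matrix.det_transpose] at hdet
  have h1 : X ^ (m * (N - P.card)) ∣ X ^ (m * (N - U.card)) * ((G (lab U S)).det * (H Z).det) := by
    rw [hdet]; exact dvd_mul_left _ _
  by_cases hle : m * U.card ≤ m * P.card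
  · rw [Nat.sub_eq_zero_of_le hle, pow_zero]; exact one_dvd _
  have hexp : m * (N - P.card) = m * (N - U.card) + (m * U.card - m * P.card) := by
    rw [Nat.mul_sub, Nat.mul_sub]
    have h3 : m * U.card ≤ m * N := Nat.mul_le_mul_left _ hUc
    omega
  rw [hexp, pow_add] at h1
  have h2 := (mul_dvd_mul_iff_left (pow_ne_zero _ X_ne_zero)).mp h1
  exact prime_X.pow_dvd_of_dvd_mul_left _ (det_G_not_dvd _) h2

/-! ### the degree bound -/

/-- the deviation sum -/
def dev (ι : Type*) [Fintype ι] [DecidableEq ι] : ℤ :=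
  ∑ s : ι → Bool, |(2 * wt s : ℤ) - Fintype.card ι|

theorem sum_wt_diff (Z : Finset (ι → Bool)) (p q : Equiv.Perm (ι → Bool)) :
    2 * (∑ z ∈ Z, (wt (p z) : ℤ)) - 2 * (∑ z ∈ Z, (wt (q z) : ℤ)) ≤ dev ι := by
  set n : ℤ := (Fintype.card ι : ℤ) with hn
  set f : (ι → Bool) → ℤ := fun s => (2 * wt s : ℤ) - n with hf
  have h1 : ∑ z ∈ Z, f (p z) ≤ ∑ s, max (f s) 0 := by
    calc ∑ z ∈ Z, f (p z) ≤ ∑ z ∈ Z, max (f (p z)) 0 := Finset.sum_le_sum fun z _ => le_max_left _ _
      _ ≤ ∑ z, max (f (p z)) 0 := Finset.sum_le_sum_of_subset_of_nonneg (Finset.subset_univ _)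
          fun z _ _ => le_max_right _ _
      _ = ∑ s, max (f s) 0 := Equiv.sum_comp p (fun s => max (f s) 0)
  have h2 : ∑ z ∈ Z, -f (q z) ≤ ∑ s, max (-f s) 0 := by
    calc ∑ z ∈ Z, -f (q z) ≤ ∑ z ∈ Z, max (-f (q z)) 0 :=
          Finset.sum_le_sum fun z _ => le_max_left _ _
      _ ≤ ∑ z, max (-f (q z)) 0 := Finset.sum_le_sum_of_subset_of_nonneg (Finset.subset_univ _)
          fun z _ _ => le_max_right _ _
      _ = ∑ s, max (-f s) 0 := Equiv.sum_comp q (fun s => max (-f s) 0)
  have h3 : ∑ s, max (f s) 0 + ∑ s, max (-f s) 0 = dev ι := by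
    rw [← Finset.sum_add_distrib, dev]
    refine Finset.sum_congr rfl fun s _ => ?_
    have : f s = (2 * wt s : ℤ) - Fintype.card ι := rfl
    rw [← this]
    rcases le_total 0 (f s) with h | h
    · rw [max_eq_left h, max_eq_right (by linarith), abs_of_nonneg h, add_zero]
    · rw [max_eq_right h, max_eq_left (by linarith), abs_of_nonpos h, zero_add]
  have h4 : ∑ z ∈ Z, f (p z) = 2 * (∑ z ∈ Z, (wt (p z) : ℤ)) - Z.card * n := by
    simp only [hf, Finset.sum_sub_distrib, ← Finset.mul_sum, Finset.sum_const, nsmul_eq_mul]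
  have h5 : ∑ z ∈ Z, -f (q z) = Z.card * n - 2 * (∑ z ∈ Z, (wt (q z) : ℤ)) := by
    rw [Finset.sum_neg_distrib]
    simp only [hf, Finset.sum_sub_distrib, ← Finset.mul_sum, Finset.sum_const, nsmul_eq_mul]
    ring
  linarith

/-- the exponent of a permutation -/
def ex (Z : Finset (ι → Bool)) (p : Equiv.Perm (ι → Bool)) : ℕ := ∑ z ∈ Z, wt (p z)

theorem ex_le (Z : Finset (ι → Bool)) (p : Equiv.Perm (ι → Bool)) :
    ex Z p ≤ Z.card * Fintype.card ι := by
  unfold ex
  rw [← smul_eq_mul, ← Finset.sum_const]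
  exact Finset.sum_le_sum fun z _ => wt_le _

theorem HW_apply (Z : Finset (ι → Bool)) (z s : ι → Bool) :
    (H Z * (W : Matrix (ι → Bool) (ι → Bool) ℝ[X])) z s = W z s * (if z ∈ Z then ev s else 1) := by
  rw [Matrix.mul_apply]
  by_cases hz : z ∈ Z
  · simp only [H, if_pos hz]
    exact M_mul_W z s
  · simp only [H, if_neg hz, ite_mul, one_mul, zero_mul, mul_one]
    rw [Finset.sum_ite_eq, if_pos (Finset.mem_univ z)]

theorem prod_ev (Z : Finset (ι → Bool)) (p : Equiv.Perm (ι → Bool)) :
    ∏ z ∈ Z, ev (p z) = (-1) ^ ex Z p *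
      ((1 - X) ^ (Z.card * Fintype.card ι - ex Z p) * (1 + X) ^ ex Z p) := by
  have h : ∀ z ∈ Z, ev (p z) = (-1) ^ wt (p z) *
      ((1 - X) ^ (Fintype.card ι - wt (p z)) * (1 + X) ^ wt (p z)) := fun z _ => ev_eq _
  rw [Finset.prod_congr rfl h, Finset.prod_mul_distrib, Finset.prod_mul_distrib,
    Finset.prod_pow_eq_pow_sum, Finset.prod_pow_eq_pow_sum, Finset.prod_pow_eq_pow_sum]
  congr 3
  unfold ex
  rw [Finset.sum_tsub_distrib _ fun z _ => wt_le _, Finset.sum_const, smul_eq_mul]

theorem natDegree_term (a b : ℕ) :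
    ((1 - X) ^ a * (1 + X) ^ b : ℝ[X]).natDegree ≤ a + b := by
  refine natDegree_mul_le.trans (add_le_add ?_ ?_)
  · refine natDegree_pow_le.trans ?_
    have : (1 - X : ℝ[X]).natDegree ≤ 1 := by
      refine (natDegree_sub_le _ _).trans ?_
      simp
    calc a * (1 - X : ℝ[X]).natDegree ≤ a * 1 := Nat.mul_le_mul_left _ this
      _ = a := mul_one a
  · refine natDegree_pow_le.trans ?_
    have : (1 + X : ℝ[X]).natDegree ≤ 1 := by
      refine (natDegree_add_le _ _).trans ?_
      simp
    calc b * (1 + X : ℝ[X]).natDegree ≤ b * 1 := Nat.mul_le_mul_left _ this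
      _ = b := mul_one b

theorem coprime_X_one_sub : IsCoprime (X : ℝ[X]) (1 - X) := ⟨1, 1, by ring⟩
theorem coprime_X_one_add : IsCoprime (X : ℝ[X]) (1 + X) := ⟨-1, 1, by ring⟩
theorem coprime_sub_add : IsCoprime (1 - X : ℝ[X]) (1 + X) :=
  ⟨C (1 / 2), C (1 / 2), by
    have : (C (1 / 2) : ℝ[X]) * (1 - X) + C (1 / 2) * (1 + X) = C (1 / 2) * C 2 := by
      rw [map_ofNat C 2]; ring
    rw [this, ← C_mul]; norm_num⟩

/-- a power of `X` dividing `det H` has exponent at most `dev / 2` -/
theorem pow_le_of_dvd_det_H (Z : Finset (ι → Bool)) (j : ℕ) (hj : X ^ j ∣ (H Z).det) :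
    (2 * j : ℤ) ≤ dev ι := by
  classical
  obtain ⟨pmax, -, hmax⟩ := Finset.exists_max_image (univ : Finset (Equiv.Perm (ι → Bool))) (ex Z)
    ⟨1, Finset.mem_univ _⟩
  obtain ⟨pmin, -, hmin⟩ := Finset.exists_min_image (univ : Finset (Equiv.Perm (ι → Bool))) (ex Z)
    ⟨1, Finset.mem_univ _⟩
  set A := Z.card * Fintype.card ι with hA
  set D : ℝ[X] := (H Z * W).det with hD
  have hD0 : D ≠ 0 := by
    rw [hD, Matrix.det_mul]; exact mul_ne_zero (det_H_ne Z) det_W_ne
  have hXD : X ^ j ∣ D := by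
    rw [hD, Matrix.det_mul]; exact hj.mul_right _
  have hexp : D = ∑ p : Equiv.Perm (ι → Bool), ((Equiv.Perm.sign p : ℤ) : ℝ[X]) *
      ((∏ z, W z (p z)) * ((-1) ^ ex Z p * ((1 - X) ^ (A - ex Z p) * (1 + X) ^ ex Z p))) := by
    rw [hD, ← Matrix.det_transpose, Matrix.det_apply']
    refine Finset.sum_congr rfl fun p _ => ?_
    congr 1
    simp only [Matrix.transpose_apply, HW_apply, Finset.prod_mul_distrib]
    rw [Finset.prod_ite, Finset.prod_const_one, mul_one]
    have h2 : (univ.filter (fun u => u ∈ Z)) = Z := by ext; simp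
    rw [h2, prod_ev]
  have hterm : ∀ p : Equiv.Perm (ι → Bool),
      (1 - X) ^ (A - ex Z pmax) ∣ (1 - X) ^ (A - ex Z p) * (1 + X : ℝ[X]) ^ ex Z p ∧
      (1 + X) ^ (ex Z pmin) ∣ (1 - X) ^ (A - ex Z p) * (1 + X : ℝ[X]) ^ ex Z p := by
    intro p
    constructor
    · refine Dvd.dvd.mul_right (pow_dvd_pow _ ?_) _
      have := hmax p (Finset.mem_univ _)
      omega
    · exact Dvd.dvd.mul_left (pow_dvd_pow _ (hmin p (Finset.mem_univ _))) _
  have hd1 : (1 - X) ^ (A - ex Z pmax) ∣ D := by
    rw [hexp]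
    refine Finset.dvd_sum fun p _ => ?_
    exact ((hterm p).1.mul_left _ |>.mul_left _ |>.mul_left _)
  have hd2 : (1 + X) ^ (ex Z pmin) ∣ D := by
    rw [hexp]
    refine Finset.dvd_sum fun p _ => ?_
    exact ((hterm p).2.mul_left _ |>.mul_left _ |>.mul_left _)
  have hWdeg : ∀ p : Equiv.Perm (ι → Bool), (∏ z : ι → Bool, (W z (p z) : ℝ[X])).natDegree = 0 := by
    intro p
    apply Nat.eq_zero_of_le_zero
    refine (natDegree_prod_le _ _).trans ?_
    refine le_of_eq (Finset.sum_eq_zero fun z _ => ?_)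
    apply Nat.eq_zero_of_le_zero
    refine (natDegree_prod_le _ _).trans ?_
    refine le_of_eq (Finset.sum_eq_zero fun k _ => ?_)
    unfold hf
    split_ifs <;> simp
  have hdeg : D.natDegree ≤ A := by
    rw [hexp]
    refine natDegree_sum_le_of_forall_le _ _ fun p _ => ?_
    refine natDegree_mul_le.trans ?_
    refine (add_le_add (b := 0) (by simp) natDegree_mul_le).trans ?_
    rw [zero_add, hWdeg p, zero_add]
    refine natDegree_mul_le.trans ?_
    have h1 : ((-1 : ℝ[X]) ^ ex Z p).natDegree = 0 := by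
      apply Nat.eq_zero_of_le_zero
      refine natDegree_pow_le.trans ?_
      simp
    rw [h1, zero_add]
    refine (natDegree_term _ _).trans ?_
    have := ex_le Z p
    omega
  have hall : X ^ j * ((1 - X) ^ (A - ex Z pmax) * (1 + X) ^ (ex Z pmin)) ∣ D := by
    refine IsCoprime.mul_dvd ?_ hXD (IsCoprime.mul_dvd ?_ hd1 hd2)
    · exact IsCoprime.mul_right (coprime_X_one_sub.pow) (coprime_X_one_add.pow)
    · exact coprime_sub_add.pow
  have hle := natDegree_le_of_dvd hall hD0
  have hne1 : (1 - X : ℝ[X]) ≠ 0 := by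
    intro h
    have := congrArg (Polynomial.eval 0) h
    simp at this
  have hne2 : (1 + X : ℝ[X]) ≠ 0 := by
    intro h
    have := congrArg (Polynomial.eval 0) h
    simp at this
  have hdeg1 : (1 - X : ℝ[X]).natDegree = 1 := by
    have : (1 - X : ℝ[X]) = C (-1) * X + C 1 := by simp; ring
    rw [this]; exact natDegree_linear (by norm_num)
  have hdeg2 : (1 + X : ℝ[X]).natDegree = 1 := by
    have : (1 + X : ℝ[X]) = C 1 * X + C 1 := by simp; ring
    rw [this]; exact natDegree_linear (by norm_num)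
  rw [natDegree_mul (pow_ne_zero _ X_ne_zero) (mul_ne_zero (pow_ne_zero _ hne1) (pow_ne_zero _ hne2)),
    natDegree_mul (pow_ne_zero _ hne1) (pow_ne_zero _ hne2), natDegree_pow, natDegree_pow,
    natDegree_pow, natDegree_X, hdeg1, hdeg2] at hle
  have hdiff := sum_wt_diff Z pmax pmin
  have hex1 : (ex Z pmax : ℤ) = ∑ z ∈ Z, (wt (pmax z) : ℤ) := by unfold ex; push_cast; rfl
  have hex2 : (ex Z pmin : ℤ) = ∑ z ∈ Z, (wt (pmin z) : ℤ) := by unfold ex; push_cast; rfl
  have hexA := ex_le Z pmax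
  rw [← hex1, ← hex2] at hdiff
  have : j + ex Z pmin ≤ ex Z pmax := by omega
  have : (j : ℤ) + ex Z pmin ≤ ex Z pmax := by exact_mod_cast this
  linarith

/-- **two scale butterfly theorem** -/
theorem butterfly (U : Finset (ι → Bool)) (S : (ι → Bool) → Finset ι) (m : ℕ)
    (P : Finset (ι → Bool)) (hP : ∀ z, z ∈ P ↔ IsRed U S m z ∧ IsBlue U S m z) :
    (2 * (m * U.card) : ℤ) ≤ 2 * (m * P.card) + dev ι := by
  classical
  have hdev : 0 ≤ dev ι := Finset.sum_nonneg fun _ _ => abs_nonneg _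
  set Z : Finset (ι → Bool) := univ.filter (fun z => IsRed U S m z ∧ ¬ IsBlue U S m z) with hZ
  have h := det_H_dvd U S m Z P (fun z => by simp [hZ]) hP
  have h2 := pow_le_of_dvd_det_H Z _ h
  by_cases hle : m * U.card ≤ m * P.card
  · have : (m * U.card : ℤ) ≤ m * P.card := by exact_mod_cast hle
    linarith
  · push Not at hle
    have h3 : ((m * U.card - m * P.card : ℕ) : ℤ) = m * U.card - m * P.card := by
      rw [Nat.cast_sub hle.le]; push_cast; ring
    rw [h3] at h2
    linarith

end Pool.Agent.BF
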